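import Pool.Graph.R_pool_sql_team_seeded_f72693b1.W634.AT.Space

/-! Finite products of the topologies `Sp A S` on an Aronszajn tree: if the intersection of the
sets `S j` is stationary, then for every countable family of open covers there are countably many
pieces each of which is contained in one member of each of the covers. -/

set_option autoImplicit false

namespace Pool.Agent.KS6_46.RB

open Set TopologicalSpace Pool.Agent.W634.AT

variable {ι : Type} [LinearOrder ι] [WellFoundedLT ι] {T : Type}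

/-- There are infinitely many pairwise disjoint stationary sets. -/
theorem exists_disjoint_stats (hc : ∀ a : ι, (Iio a).Countable)
    (hu : ∀ A : Set ι, A.Countable → ∃ b, ∀ a ∈ A, a < b) :
    ∃ P : ℕ → Set ι, (∀ n, Stat (P n)) ∧ ∀ m n, m ≠ n → Disjoint (P m) (P n) := by
  classical
  have hunc : ¬ (univ : Set ι).Countable := by
    intro h
    obtain ⟨b, hb⟩ := hu _ h
    exact lt_irrefl b (hb b (mem_univ b))
  have hf : ∀ α : ι, ∃ f : ι → ℕ, InjOn f (Iio α) := fun α =>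
    Set.countable_iff_exists_injOn.mp (hc α)
  choose f hf using hf
  let A : ℕ → ι → Set ι := fun n ξ => {α | ξ < α ∧ f α ξ = n}
  have hst : ∀ ξ : ι, ∃ n, Stat (A n ξ) := by
    intro ξ
    by_contra hcon
    push Not at hcon
    simp only [Stat, not_forall] at hcon
    choose g hg using hcon
    have hG : ∀ a : ι, ∃ b : ι, a < b ∧ ∀ a' ≤ a, ∀ n, g n a' < b := by
      intro a
      have hcount : (insert a (⋃ n, g n '' (insert a (Iio a)))).Countable := by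
        apply Countable.insert
        exact countable_iUnion fun n => ((hc a).insert a).image _
      obtain ⟨b, hb⟩ := hu _ hcount
      refine ⟨b, hb a (mem_insert _ _), fun a' ha' n => hb _ ?_⟩
      right
      rw [mem_iUnion]
      refine ⟨n, mem_image_of_mem _ ?_⟩
      rcases eq_or_lt_of_le ha' with h | h
      · exact Or.inl h
      · exact Or.inr h
    choose G hG1 hG2 using hG
    let s : ℕ → ι := fun n => G^[n] ξ
    have hs : ∀ n, s (n + 1) = G (s n) := fun n => Function.iterate_succ_apply' G n _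
    obtain ⟨δ, hL, hlt, hcof⟩ := exists_lub hu s (fun n => by rw [hs]; exact hG1 _)
    refine hg (f δ ξ) ⟨δ, ⟨hlt 0, rfl⟩, hL, fun a ha => ?_⟩
    obtain ⟨n, hn⟩ := hcof a ha
    calc g (f δ ξ) a < G (s n) := hG2 (s n) a hn _
      _ = s (n + 1) := (hs n).symm
      _ < δ := hlt _
  choose n hn using hst
  -- some fibre of `n` is uncountable
  obtain ⟨k, hk⟩ : ∃ k, ¬ (n ⁻¹' {k}).Countable := by
    by_contra hcon
    push Not at hcon
    apply hunc
    have : (univ : Set ι) = ⋃ k, n ⁻¹' {k} := by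
      ext x
      simp
    rw [this]
    exact countable_iUnion hcon
  have hinf : (n ⁻¹' {k}).Infinite := fun h => hk h.countable
  let e : ℕ ↪ (n ⁻¹' {k}) := hinf.natEmbedding
  refine ⟨fun m => A k (e m).1, fun m => ?_, fun m m' hmm' => ?_⟩
  · have h1 : n (e m).1 = k := (e m).2
    have h2 := hn (e m).1
    rwa [h1] at h2
  · rw [Set.disjoint_left]
    rintro α ⟨h3, h4⟩ ⟨h5, h6⟩
    apply hmm'
    apply e.injective
    apply Subtype.ext
    exact hf α h3 h5 (by rw [h4, h6])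

omit [WellFoundedLT ι] in
/-- Families of tuples of nodes of the same level (the level is the first coordinate), for any two
of which some coordinates are comparable, are bounded. -/
theorem bounded_tuples {J : Type} [Finite J]
    (hu : ∀ A : Set ι, A.Countable → ∃ b, ∀ a ∈ A, a < b)
    (A : Tree ι T) (C : Set (ι × (J → T)))
    (hlev : ∀ p ∈ C, ∀ j, A.ht (p.2 j) = p.1)
    (hcmp : ∀ p ∈ C, ∀ q ∈ C, p.1 < q.1 → ∃ j, A.ag p.1 (p.2 j) (q.2 j)) :
    ∃ b, ∀ p ∈ C, p.1 < b := by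
  classical
  have hι : Nonempty ι := by
    obtain ⟨b, _⟩ := hu ∅ countable_empty
    exact ⟨b⟩
  by_contra hcon
  push Not at hcon
  let F : Filter (ι × (J → T)) := ⨅ b : ι, Filter.principal {p | p ∈ C ∧ b ≤ p.1}
  have hdir : Directed (· ≥ ·) fun b : ι => Filter.principal {p : ι × (J → T) | p ∈ C ∧ b ≤ p.1} := by
    intro a b
    refine ⟨max a b, ?_, ?_⟩
    · refine Filter.principal_mono.mpr ?_
      rintro p ⟨h1, h2⟩
      exact ⟨h1, (le_max_left _ _).trans h2⟩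
    · refine Filter.principal_mono.mpr ?_
      rintro p ⟨h1, h2⟩
      exact ⟨h1, (le_max_right _ _).trans h2⟩
  have hX : Nonempty (ι × (J → T)) := by
    obtain ⟨p, -, -⟩ := hcon (Classical.arbitrary ι)
    exact ⟨p⟩
  have hne : F.NeBot := by
    refine Filter.iInf_neBot_of_directed hdir fun b => ?_
    obtain ⟨p, hp, hbp⟩ := hcon b
    exact Filter.principal_neBot_iff.mpr ⟨p, hp, hbp⟩
  let 𝓤 : Ultrafilter (ι × (J → T)) := Ultrafilter.of F
  have h𝓤 : ∀ b : ι, {p : ι × (J → T) | p ∈ C ∧ b ≤ p.1} ∈ 𝓤 := by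
    intro b
    have h1 : {p : ι × (J → T) | p ∈ C ∧ b ≤ p.1} ∈ F :=
      Filter.mem_iInf_of_mem b (Filter.mem_principal_self _)
    exact Ultrafilter.of_le F h1
  have hlt : ∀ a : ι, ∃ b, a < b := by
    intro a
    obtain ⟨b, hb⟩ := hu {a} (countable_singleton a)
    exact ⟨b, hb a rfl⟩
  have hsel : ∀ p ∈ C, ∃ j, {q : ι × (J → T) | q ∈ C ∧ A.ag p.1 (p.2 j) (q.2 j)} ∈ 𝓤 := by
    intro p hp
    obtain ⟨b, hb⟩ := hlt p.1
    have h1 : (⋃ j ∈ (univ : Set J), {q : ι × (J → T) | q ∈ C ∧ A.ag p.1 (p.2 j) (q.2 j)}) ∈ 𝓤 := by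
      refine Filter.mem_of_superset (h𝓤 b) ?_
      rintro q ⟨h2, h3⟩
      obtain ⟨j, hj⟩ := hcmp p hp q h2 (hb.trans_le h3)
      rw [mem_iUnion₂]
      exact ⟨j, mem_univ j, h2, hj⟩
    rw [Ultrafilter.finite_biUnion_mem_iff Set.finite_univ] at h1
    obtain ⟨j, -, hj⟩ := h1
    exact ⟨j, hj⟩
  have hJ : Nonempty J := by
    obtain ⟨p, hp, -⟩ := hcon (Classical.arbitrary ι)
    obtain ⟨j, -⟩ := hsel p hp
    exact ⟨j⟩
  choose! jj hjj using hsel
  have hbd : ∀ j : J, ∃ b, ∀ t ∈ {t : T | ∃ p ∈ C, jj p = j ∧ t = p.2 j}, A.ht t < b := by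
    intro j
    refine A.nochain _ ?_
    rintro _ ⟨p, hp, hpj, rfl⟩ _ ⟨q, hq, hqj, rfl⟩ h1
    rw [hlev p hp, hlev q hq] at h1
    have h2 := hjj p hp
    have h3 := hjj q hq
    rw [hpj] at h2
    rw [hqj] at h3
    obtain ⟨u, hu1, hu2⟩ := 𝓤.nonempty_of_mem (Filter.inter_mem h2 h3)
    rw [hlev p hp]
    exact A.trans _ _ _ _ hu1.2 (A.symm _ _ _ (A.anti _ _ _ _ h1.le hu2.2))
  choose bb hbb using hbd
  obtain ⟨b, hb⟩ := hu (range bb) (Set.finite_range bb).countable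
  obtain ⟨p, hp, hbp⟩ := hcon b
  have h1 := hbb (jj p) (p.2 (jj p)) ⟨p, hp, rfl, rfl⟩
  rw [hlev p hp] at h1
  exact absurd (h1.trans (hb _ ⟨_, rfl⟩)) (not_lt.mpr hbp)

/-- `p` is a tuple of nodes of the level `p.1`. -/
def Lev {J : Type} (A : Tree ι T) (p : ι × (J → T)) : Prop := ∀ j, A.ht (p.2 j) = p.1

omit [WellFoundedLT ι] in
theorem lev_countable {J : Type} [Finite J] (A : Tree ι T) (δ : ι) :
    {p : ι × (J → T) | p.1 = δ ∧ Lev A p}.Countable := by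
  have h1 : (Set.pi univ fun _ : J => {t : T | A.ht t = δ}).Countable :=
    Set.countable_univ_pi fun _ => A.level δ
  refine (h1.image fun t => (δ, t)).mono ?_
  rintro ⟨a, t⟩ ⟨h2, h3⟩
  simp only at h2
  subst h2
  exact ⟨t, fun j _ => h3 j, rfl⟩

omit [WellFoundedLT ι] in
/-- The tuples of nodes of large heights are covered by the basic boxes of the tuples of bounded
levels. -/
theorem bounded_cover {J : Type} [Finite J]
    (hu : ∀ A : Set ι, A.Countable → ∃ b, ∀ a ∈ A, a < b)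
    (A : Tree ι T) (P : Set ι) (hP : Stat P) (ξ : ι × (J → T) → ι)
    (hξ : ∀ p, Lev A p → p.1 ∈ P → Lim p.1 → ξ p < p.1) :
    ∃ α, ∀ x : J → T, (∀ j, α ≤ A.ht (x j)) →
      ∃ p, Lev A p ∧ p.1 < α ∧ p.1 ∈ P ∧ Lim p.1 ∧ ∀ j, x j ∈ A.N (p.2 j) (ξ p) := by
  by_contra hcon
  push Not at hcon
  choose x hx1 hx2 using hcon
  let B : Set (ι × (J → T)) := {p | Lev A p ∧ ∀ β, ∃ α, β < α ∧ ∀ j, A.le (p.2 j) (x α j)}
  have hB : ∀ δ, ∃ p ∈ B, p.1 = δ := by
    intro δ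
    by_contra hc
    push Not at hc
    have h1 : ∀ p ∈ {p : ι × (J → T) | p.1 = δ ∧ Lev A p}, ∃ β, ∀ α, β < α →
        ¬ ∀ j, A.le (p.2 j) (x α j) := by
      intro p hp
      by_contra h2
      push Not at h2
      exact hc p ⟨hp.2, h2⟩ hp.1
    have : Nonempty ι := ⟨δ⟩
    choose! β hβ using h1
    obtain ⟨b, hb⟩ := hu _ (((lev_countable (J := J) A δ).image β).insert δ)
    have hδb : δ < b := hb δ (mem_insert _ _)
    have h3 : ∀ j, ∃ s, A.ht s = δ ∧ A.ag δ s (x b j) := fun j =>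
      A.restr (x b j) δ (hδb.le.trans (hx1 b j))
    choose y hy1 hy2 using h3
    refine hβ (δ, y) ⟨rfl, hy1⟩ b (hb _ (Or.inr ⟨(δ, y), ⟨rfl, hy1⟩, rfl⟩)) fun j => ⟨?_, ?_⟩
    · change A.ht (y j) ≤ _
      rw [hy1]; exact hδb.le.trans (hx1 b j)
    · change A.ag (A.ht (y j)) _ _
      rw [hy1]; exact hy2 j
  have key : ∀ p ∈ B, p.1 ∈ P → Lim p.1 → ∀ q ∈ B, p.1 ≤ q.1 →
      (∀ j, A.ag (ξ p) (p.2 j) (q.2 j)) → ∃ j, A.le (p.2 j) (q.2 j) := by
    intro p hp h1 h2 q hq h3 h4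
    by_contra h5
    push Not at h5
    obtain ⟨α, h6, h7⟩ := hq.2 p.1
    obtain ⟨j, hj⟩ := hx2 α p hp.1 h6 h1 h2
    apply hj
    have hξp := hξ p hp.1 h1 h2
    refine Or.inr ⟨?_, ?_, ?_⟩
    · exact hξp.trans (h6.trans_le (hx1 α j))
    · refine A.trans _ _ _ _ (h4 j) (A.anti _ _ _ _ (hξp.le.trans h3) ?_)
      have h8 := (h7 j).2
      rwa [hq.1 j] at h8
    · intro h8
      apply h5 j
      refine ⟨?_, ?_⟩
      · rw [hp.1 j, hq.1 j]; exact h3
      · refine A.trans _ _ _ _ h8.2 (A.symm _ _ _ (A.anti _ _ _ _ ?_ (h7 j).2))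
        rw [hp.1 j, hq.1 j]; exact h3
  obtain ⟨e, he⟩ := pressing hu hP (fun β => {e : ι × (J → T) | e.1 = β ∧ Lev A e})
    (fun β => lev_countable A β)
    (fun δ e => ∃ p ∈ B, p.1 = δ ∧ e.1 = ξ p ∧ ∀ j, A.ag (ξ p) (e.2 j) (p.2 j)) (by
      intro δ hδ hL
      obtain ⟨p, hp, hpδ⟩ := hB δ
      subst hpδ
      have h1 := hξ p hp.1 hδ hL
      have h2 : ∀ j, ∃ s, A.ht s = ξ p ∧ A.ag (ξ p) s (p.2 j) := fun j =>
        A.restr (p.2 j) (ξ p) (by rw [hp.1 j]; exact h1.le)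
      choose v hv1 hv2 using h2
      exact ⟨ξ p, h1, (ξ p, v), ⟨rfl, hv1⟩, p, hp, rfl, rfl, hv2⟩)
  let C : Set (ι × (J → T)) := {p | p ∈ B ∧ p.1 ∈ P ∧ Lim p.1 ∧ e.1 = ξ p ∧
    ∀ j, A.ag (ξ p) (e.2 j) (p.2 j)}
  obtain ⟨b, hb⟩ := bounded_tuples hu A C (fun p hp => hp.1.1) (by
    rintro p ⟨h1, h2, h3, h4, h5⟩ q ⟨h6, h7, h8, h9, h10⟩ h11
    have h12 : ξ p = ξ q := by rw [← h4, h9]
    obtain ⟨j, hj⟩ := key p h1 h2 h3 q h6 h11.le (fun j =>
      A.trans _ _ _ _ (A.symm _ _ _ (h5 j)) (by rw [h12]; exact h10 j))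
    refine ⟨j, ?_⟩
    have h13 := hj.2
    rwa [h1.1 j] at h13)
  obtain ⟨δ, h1, h2, h3, p, h4, h5, h6, h7⟩ := he b
  subst h5
  exact lt_asymm h2 (hb p ⟨h4, h1, h3, h6, h7⟩)

omit [WellFoundedLT ι] in
/-- Open sets of the product contain basic boxes. -/
theorem box_nhds {J : Type} (hι : Nonempty ι) (A : Tree ι T) (S : J → Set ι)
    (U : Set (∀ j, Sp A (S j))) (hU : IsOpen U) (x : ∀ j, Sp A (S j)) (hx : x ∈ U) :
    ∃ ξ : J → ι, (∀ j, A.ht (x j) ∈ S j → Lim (A.ht (x j)) → ξ j < A.ht (x j)) ∧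
      ∀ y : ∀ j, Sp A (S j), (∀ j, y j = x j ∨
        (A.ht (x j) ∈ S j ∧ Lim (A.ht (x j)) ∧ y j ∈ A.N (x j) (ξ j))) → y ∈ U := by
  classical
  rw [isOpen_pi_iff] at hU
  obtain ⟨I, u, h1, h2⟩ := hU x hx
  have h3 : ∀ j, ∃ ξ : ι, (A.ht (x j) ∈ S j → Lim (A.ht (x j)) →
      ξ < A.ht (x j) ∧ (j ∈ I → A.N (x j) ξ ⊆ u j)) := by
    intro j
    by_cases h : A.ht (x j) ∈ S j ∧ Lim (A.ht (x j))
    · by_cases hj : j ∈ I
      · obtain ⟨ξ, h4, h5⟩ := (h1 j hj).1 (x j) (h1 j hj).2 h.1 h.2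
        exact ⟨ξ, fun _ _ => ⟨h4, fun _ => h5⟩⟩
      · obtain ⟨a, ha⟩ := h.2.1
        exact ⟨a, fun _ _ => ⟨ha, fun h6 => absurd h6 hj⟩⟩
    · exact ⟨Classical.arbitrary ι, fun h4 h5 => absurd ⟨h4, h5⟩ h⟩
  choose ξ hξ using h3
  refine ⟨ξ, fun j h4 h5 => (hξ j h4 h5).1, fun y hy => h2 fun j hj => ?_⟩
  rcases hy j with h4 | ⟨h4, h5, h6⟩
  · rw [h4]; exact (h1 j hj).2
  · exact (hξ j h4 h5).2 hj h6

omit [WellFoundedLT ι] in
/-- The cones of nodes of a basic neighbourhood above the level of its centre lie in it. -/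
theorem cone_subset (A : Tree ι T) (t x y : T) (ξ : ι) (h1 : A.ht t < A.ht x)
    (hx : x ∈ A.N t ξ) (hy : A.le x y) : y ∈ A.N t ξ := by
  have hne : x ≠ t := by
    rintro rfl
    exact lt_irrefl _ h1
  rcases hx with hx | ⟨h2, h3, h4⟩
  · exact absurd hx hne
  · refine Or.inr ⟨h2.trans_le hy.1, A.trans _ _ _ _ h3 (A.anti _ _ _ _ h2.le hy.2), fun h5 => ?_⟩
    exact h4 ⟨h1.le, A.trans _ _ _ _ h5.2 (A.symm _ _ _ (A.anti _ _ _ _ h1.le hy.2))⟩

omit [WellFoundedLT ι] in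
/-- The pieces. -/
theorem exists_pieces_pi {J : Type} [Finite J] (hc : ∀ a : ι, (Iio a).Countable)
    (hu : ∀ A : Set ι, A.Countable → ∃ b, ∀ a ∈ A, a < b)
    (A : Tree ι T) (P : Set ι) (hP : Stat P) (S : J → Set ι) (hPS : ∀ j, P ⊆ S j)
    (𝒰 : ℕ → Set (Set (∀ j, Sp A (S j))))
    (ho : ∀ n, ∀ U ∈ 𝒰 n, IsOpen U) (hcov : ∀ n x, ∃ U ∈ 𝒰 n, x ∈ U) :
    ∃ Pc : Set (Set (∀ j, Sp A (S j))), Pc.Countable ∧ (∀ x, ∃ Q ∈ Pc, x ∈ Q) ∧
      ∀ n, ∀ Q ∈ Pc, ∃ U ∈ 𝒰 n, Q ⊆ U := by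
  classical
  have hι : Nonempty ι := by
    obtain ⟨b, _⟩ := hu ∅ countable_empty
    exact ⟨b⟩
  -- step 1
  have step1 : ∀ (n : ℕ) (L : Set J) (s : J → T), ∃ α, ∀ x : J → T, (∀ j ∈ L, x j = s j) →
      (∀ j ∉ L, α ≤ A.ht (x j)) → ∃ δ < α, ∃ U ∈ 𝒰 n, ∃ ξ, ∃ t : J → T,
        (∀ j ∉ L, A.ht (t j) = δ ∧ x j ∈ A.N (t j) ξ) ∧
        ∀ y : J → T, (∀ j ∈ L, y j = s j) → (∀ j ∉ L, y j ∈ A.N (t j) ξ) →
          (show ∀ j, Sp A (S j) from y) ∈ U := by
    intro n L s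
    let K : Type := {j : J // j ∉ L}
    let glue : (K → T) → ∀ j, Sp A (S j) := fun t j => if h : j ∈ L then s j else t ⟨j, h⟩
    have hglue : ∀ t j (h : j ∉ L), glue t j = t ⟨j, h⟩ := fun t j h => dif_neg h
    have hglue' : ∀ t j (h : j ∈ L), glue t j = s j := fun t j h => dif_pos h
    have h1 : ∀ p : ι × (K → T), ∃ ξ : ι, (Lev A p → p.1 ∈ P → Lim p.1 → ξ < p.1 ∧
        ∃ U ∈ 𝒰 n, ∀ y : J → T, (∀ j ∈ L, y j = s j) →
          (∀ j (h : j ∉ L), y j ∈ A.N (p.2 ⟨j, h⟩) ξ) → (show ∀ j, Sp A (S j) from y) ∈ U) := by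
      intro p
      by_cases hp : Lev A p ∧ p.1 ∈ P ∧ Lim p.1
      · obtain ⟨hp1, hp2, hp3⟩ := hp
        obtain ⟨U, hU, hgU⟩ := hcov n (glue p.2)
        obtain ⟨ξ, h2, h3⟩ := box_nhds hι A S U (ho n U hU) (glue p.2) hgU
        have h4 : ∀ j : K, ξ j.1 < p.1 := by
          intro j
          have h5 := h2 j.1
          rw [hglue p.2 j.1 j.2] at h5
          have h6 : A.ht (p.2 j) = p.1 := hp1 j
          have h7 : A.ht (p.2 ⟨j.1, j.2⟩) = p.1 := h6
          rw [h7] at h5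
          exact h5 (hPS j.1 hp2) hp3
        have : Nonempty (Iio p.1) := by
          obtain ⟨a, ha⟩ := hp3.1
          exact ⟨⟨a, ha⟩⟩
        obtain ⟨M, hM⟩ := Finite.exists_le fun j : K => (⟨ξ j.1, h4 j⟩ : Iio p.1)
        refine ⟨M.1, fun _ _ _ => ⟨M.2, U, hU, fun y hy1 hy2 => h3 y fun j => ?_⟩⟩
        by_cases hj : j ∈ L
        · left
          rw [hglue' p.2 j hj]
          exact hy1 j hj
        · right
          rw [hglue p.2 j hj]
          have h7 : A.ht (p.2 ⟨j, hj⟩) = p.1 := hp1 ⟨j, hj⟩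
          refine ⟨?_, ?_, ?_⟩
          · rw [h7]; exact hPS j hp2
          · rw [h7]; exact hp3
          · have h8 : ξ j ≤ M.1 := hM ⟨j, hj⟩
            exact A.N_anti _ h8 (hy2 j hj)
      · exact ⟨Classical.arbitrary ι, fun h2 h3 h4 => absurd ⟨h2, h3, h4⟩ hp⟩
    choose ξ hξ using h1
    obtain ⟨α, hα⟩ := bounded_cover hu A P hP ξ (fun p h2 h3 h4 => (hξ p h2 h3 h4).1)
    obtain ⟨t0, -⟩ := A.tall (Classical.arbitrary ι)
    refine ⟨α, fun x hx1 hx2 => ?_⟩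
    obtain ⟨p, h2, h3, h4, h5, h6⟩ := hα (fun j : K => x j.1) (fun j => hx2 j.1 j.2)
    obtain ⟨h7, U, hU, h8⟩ := hξ p h2 h4 h5
    refine ⟨p.1, h3, U, hU, ξ p, fun j => if h : j ∈ L then t0 else p.2 ⟨j, h⟩, ?_, ?_⟩
    · intro j hj
      simp only [hj, dite_false]
      exact ⟨h2 ⟨j, hj⟩, h6 ⟨j, hj⟩⟩
    · intro y hy1 hy2
      refine h8 y hy1 fun j hj => ?_
      have h9 := hy2 j hj
      simp only [hj, dite_false] at h9
      exact h9
  choose α hα using step1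
  obtain ⟨t0, -⟩ := A.tall (Classical.arbitrary ι)
  -- step 2
  have step2 : ∀ γ : ι, ∃ g : ι, ∀ (n : ℕ) (L : Set J) (s : J → T),
      (∀ j, A.ht (s j) ≤ γ ∨ s j = t0) → α n L s < g := by
    intro γ
    have h1 : {t : T | A.ht t ≤ γ ∨ t = t0}.Countable := by
      have h2 : {t : T | A.ht t ≤ γ ∨ t = t0} ⊆
          (⋃ δ ∈ insert γ (Iio γ), {t | A.ht t = δ}) ∪ {t0} := by
        rintro t (ht | ht)
        · left
          rw [mem_iUnion₂]
          exact ⟨A.ht t, (eq_or_lt_of_le ht).imp id id, rfl⟩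
        · right
          exact ht
      exact ((((hc γ).insert γ).biUnion fun δ _ => A.level δ).union
        (countable_singleton t0)).mono h2
    have h3 : (Set.pi univ fun _ : J => {t : T | A.ht t ≤ γ ∨ t = t0}).Countable :=
      Set.countable_univ_pi fun _ => h1
    have h4 : (⋃ (n : ℕ), ⋃ (L : Set J),
        (α n L) '' (Set.pi univ fun _ : J => {t : T | A.ht t ≤ γ ∨ t = t0})).Countable :=
      countable_iUnion fun n => countable_iUnion fun L => h3.image _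
    obtain ⟨g, hg⟩ := hu _ h4
    refine ⟨g, fun n L s hs => hg _ ?_⟩
    rw [mem_iUnion₂]
    exact ⟨n, L, s, fun j _ => hs j, rfl⟩
  choose g hg using step2
  obtain ⟨δ, hδP, hδL, hδg⟩ := hP g
  -- the pieces
  let Q : Set J × (J → T) × (J → T) → Set (∀ j, Sp A (S j)) := fun q =>
    {x | (∀ j ∈ q.1, x j = q.2.1 j) ∧ ∀ j ∉ q.1, A.le (q.2.2 j) (x j)}
  have hlow : {t : T | A.ht t < δ ∨ t = t0}.Countable := by
    have h2 : {t : T | A.ht t < δ ∨ t = t0} ⊆ (⋃ η ∈ Iio δ, {t | A.ht t = η}) ∪ {t0} := by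
      rintro t (ht | ht)
      · left
        rw [mem_iUnion₂]
        exact ⟨A.ht t, ht, rfl⟩
      · right
        exact ht
    exact (((hc δ).biUnion fun η _ => A.level η).union (countable_singleton t0)).mono h2
  let I : Set (Set J × (J → T) × (J → T)) := univ ×ˢ
    ((Set.pi univ fun _ : J => {t : T | A.ht t < δ ∨ t = t0}) ×ˢ
      (Set.pi univ fun _ : J => {t : T | A.ht t = δ}))
  have hI : I.Countable := (Set.countable_univ).prod
    ((Set.countable_univ_pi fun _ => hlow).prod (Set.countable_univ_pi fun _ => A.level δ))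
  refine ⟨Q '' I, hI.image Q, ?_, ?_⟩
  · suffices hx : ∀ x : J → T, ∃ R ∈ Q '' I, (show ∀ j, Sp A (S j) from x) ∈ R from
      fun x => hx x
    intro x
    have h1 : ∀ j, ∃ y, A.ht y = δ ∧ (¬ A.ht (x j) < δ → A.le y (x j)) := by
      intro j
      by_cases h : A.ht (x j) < δ
      · obtain ⟨y, hy⟩ := A.tall δ
        exact ⟨y, hy, fun h2 => absurd h h2⟩
      · obtain ⟨y, hy1, hy2⟩ := A.restr (x j) δ (not_lt.mp h)
        exact ⟨y, hy1, fun _ => ⟨by rw [hy1]; exact not_lt.mp h, by rw [hy1]; exact hy2⟩⟩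
    choose y hy1 hy2 using h1
    refine ⟨_, ⟨({j | A.ht (x j) < δ}, fun j => if A.ht (x j) < δ then x j else t0, y),
      ⟨mem_univ _, ?_, fun j _ => hy1 j⟩, rfl⟩, ?_, ?_⟩
    · intro j _
      by_cases h : A.ht (x j) < δ
      · left
        change A.ht (if A.ht (x j) < δ then x j else t0) < δ
        rw [if_pos h]
        exact h
      · right
        exact if_neg h
    · intro j hj
      have hj' : A.ht (x j) < δ := hj
      exact (if_pos hj').symm
    · intro j hj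
      exact hy2 j hj
  · rintro n _ ⟨⟨L, s, y⟩, ⟨-, hs, hy⟩, rfl⟩
    -- a bound for the low coordinates
    have : Nonempty (Iio δ) := by
      obtain ⟨a, ha⟩ := hδL.1
      exact ⟨⟨a, ha⟩⟩
    obtain ⟨a0, ha0⟩ := hδL.1
    obtain ⟨M, hM⟩ := Finite.exists_le fun j : J =>
      (if h : A.ht (s j) < δ then (⟨A.ht (s j), h⟩ : Iio δ) else ⟨a0, ha0⟩)
    have h1 : ∀ j, A.ht (s j) ≤ M.1 ∨ s j = t0 := by
      intro j
      rcases hs j (mem_univ j) with h | h
      · left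
        have h2 := hM j
        rw [dif_pos h] at h2
        exact h2
      · exact Or.inr h
    have h2 : α n L s < δ := (hg M.1 n L s h1).trans (hδg M.1 M.2)
    obtain ⟨η, hη, U, hU, ξ, t, h3, h4⟩ := hα n L s (fun j => if j ∈ L then s j else y j)
      (fun j hj => by simp only [hj, if_true])
      (fun j hj => by
        simp only [hj, if_false]
        have h5 : A.ht (y j) = δ := hy j (mem_univ j)
        rw [h5]
        exact h2.le)
    refine ⟨U, hU, ?_⟩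
    rintro x ⟨hx1, hx2⟩
    refine h4 x hx1 fun j hj => ?_
    have h5 := h3 j hj
    simp only [hj, if_false] at h5
    refine cone_subset A (t j) (y j) (x j) ξ ?_ h5.2 (hx2 j hj)
    have h6 : A.ht (y j) = δ := hy j (mem_univ j)
    rw [h5.1, h6]
    exact hη.trans h2

end Pool.Agent.KS6_46.RB
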