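import Pool.Agent.KS6_46.RB.Pow

/-! The topological sum of the spaces `Sp A (S i)`, `i ∈ Fin (n + 1)`, and its finite powers. -/

set_option autoImplicit false

namespace Pool.Agent.KS6_46.RB

open Set TopologicalSpace Pool.Agent.W634.AT Cardinal

/-- A well ordered set of the order type `ω₁`. -/
theorem exists_omega1 : ∃ (ι : Type) (_ : LinearOrder ι) (_ : WellFoundedLT ι),
    (∀ a : ι, (Iio a).Countable) ∧
      (∀ A : Set ι, A.Countable → ∃ b, ∀ a ∈ A, a < b) ∧ #ι = ℵ₁ := by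
  let ι : Type := (Cardinal.aleph 1).ord.ToType
  have h1 : ∀ a : ι, (Iio a).Countable := by
    intro a
    have h := Cardinal.mk_Iio_toType_ord_lt (c := Cardinal.aleph 1) a
    have h2 : Cardinal.mk (Iio a) ≤ Cardinal.aleph0 := by
      have h3 : Cardinal.aleph 1 = Order.succ Cardinal.aleph0 := by
        rw [← Cardinal.succ_aleph0]
      exact Order.lt_succ_iff.1 (lt_of_lt_of_eq h h3)
    exact Cardinal.le_aleph0_iff_set_countable.1 h2
  have h4 : Cardinal.mk ι = Cardinal.aleph 1 := by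
    simp [ι]
  refine ⟨ι, inferInstance, inferInstance, h1, ?_, h4⟩
  intro A hA
  by_contra hcon
  push Not at hcon
  have h2 : (univ : Set ι) = ⋃ a ∈ A, insert a (Iio a) := by
    apply Subset.antisymm _ (subset_univ _)
    intro b _
    obtain ⟨a, ha, hba⟩ := hcon b
    rw [mem_iUnion₂]
    refine ⟨a, ha, ?_⟩
    rcases eq_or_lt_of_le hba with h | h
    · exact Or.inl h
    · exact Or.inr h
  have h3 : (univ : Set ι).Countable := by
    rw [h2]
    exact hA.biUnion (fun a _ => (h1 a).insert a)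
  have h5 : Cardinal.mk ι ≤ Cardinal.aleph0 := by
    have := Cardinal.le_aleph0_iff_set_countable.2 h3
    rwa [Cardinal.mk_univ] at this
  rw [h4] at h5
  exact absurd h5 (not_le.2 Cardinal.aleph0_lt_aleph_one)

variable {ι : Type} [LinearOrder ι] {T : Type}

/-- Different points are separated in any two of the topologies. -/
theorem sep_ne (A : Tree ι T) (S S' : Set ι) (s t : T) (hst : s ≠ t) :
    ∃ U V : Set T, A.op S U ∧ A.op S' V ∧ s ∈ U ∧ t ∈ V ∧ Disjoint U V := by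
  by_cases h : A.ht s ∈ S ∧ Lim (A.ht s)
  · obtain ⟨ξ, h1, h2⟩ := A.not_mem_N s t hst h.2
    refine ⟨A.N s ξ, (A.N s ξ)ᶜ, A.N_open S s ξ h1, ?_, A.self_mem_N _ _, h2,
      disjoint_compl_right⟩
    intro r hr _ hL
    obtain ⟨η, h3, h4⟩ := A.N_disj r s ξ hr h1 hL
    exact ⟨η, h3, fun x hx hx' => Set.disjoint_left.mp h4 hx hx'⟩
  · exact ⟨{s}, {s}ᶜ, A.singleton_open S s h, A.compl_open S' s, rfl, fun h => hst h.symm,
      disjoint_compl_right⟩

/-- The spaces are first countable. -/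
theorem sp_firstCountable (hc : ∀ a : ι, (Iio a).Countable) (A : Tree ι T) (S : Set ι) :
    FirstCountableTopology (Sp A S) := by
  refine ⟨fun t => ?_⟩
  by_cases h : A.ht t ∈ S ∧ Lim (A.ht t)
  · have hb : (nhds t).HasBasis (fun ξ => ξ < A.ht t) (fun ξ => (A.N t ξ : Set T)) := by
      refine ⟨fun U => ?_⟩
      rw [mem_nhds_iff]
      constructor
      · rintro ⟨V, h1, h2, h3⟩
        obtain ⟨ξ, h4, h5⟩ := h2 t h3 h.1 h.2
        exact ⟨ξ, h4, h5.trans h1⟩
      · rintro ⟨ξ, h4, h5⟩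
        exact ⟨A.N t ξ, h5, A.N_open S t ξ h4, A.self_mem_N t ξ⟩
    exact (Filter.HasCountableBasis.mk hb (hc (A.ht t))).isCountablyGenerated
  · have h1 : IsOpen ({t} : Set (Sp A S)) := A.singleton_open S t h
    rw [isOpen_singleton_iff_nhds_eq_pure] at h1
    rw [h1]
    infer_instance

/-- The sum. -/
abbrev Sm (A : Tree ι T) {n : ℕ} (S : Fin (n + 1) → Set ι) : Type := Σ i, Sp A (S i)

/-- the pieces of the powers of the sum -/
theorem exists_pieces_pow [WellFoundedLT ι] (hc : ∀ a : ι, (Iio a).Countable)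
    (hu : ∀ A : Set ι, A.Countable → ∃ b, ∀ a ∈ A, a < b)
    (A : Tree ι T) {n : ℕ} (S P : Fin (n + 1) → Set ι) (hP : ∀ i, Stat (P i))
    (hPS : ∀ i j, j ≠ i → P i ⊆ S j) (k : ℕ) (hk : k ≤ n)
    (𝒰 : ℕ → Set (Set (Fin k → Sm A S)))
    (ho : ∀ n, ∀ U ∈ 𝒰 n, IsOpen U) (hcov : ∀ n x, ∃ U ∈ 𝒰 n, x ∈ U) :
    ∃ Pc : Set (Set (Fin k → Sm A S)), Pc.Countable ∧ (∀ x, ∃ Q ∈ Pc, x ∈ Q) ∧
      ∀ n, ∀ Q ∈ Pc, ∃ U ∈ 𝒰 n, Q ⊆ U := by
  classical
  let φ : ∀ f : Fin k → Fin (n + 1), (∀ j, Sp A (S (f j))) → (Fin k → Sm A S) :=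
    fun f y j => ⟨f j, y j⟩
  have hφ : ∀ f, Continuous (φ f) := fun f =>
    continuous_pi fun j => continuous_sigmaMk.comp (continuous_apply j)
  have h1 : ∀ f : Fin k → Fin (n + 1), ∃ Pc : Set (Set (∀ j, Sp A (S (f j)))), Pc.Countable ∧
      (∀ x, ∃ Q ∈ Pc, x ∈ Q) ∧
      ∀ m, ∀ Q ∈ Pc, ∃ U ∈ (fun U => φ f ⁻¹' U) '' 𝒰 m, Q ⊆ U := by
    intro f
    obtain ⟨i, hi⟩ : ∃ i, ∀ j, f j ≠ i := by
      by_contra hcon
      push Not at hcon
      have h2 : Function.Surjective f := hcon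
      have h3 := Fintype.card_le_of_surjective f h2
      simp only [Fintype.card_fin] at h3
      omega
    refine exists_pieces_pi hc hu A (P i) (hP i) (fun j => S (f j)) (fun j => hPS i (f j) (hi j))
      (fun m => (fun U => φ f ⁻¹' U) '' 𝒰 m) ?_ ?_
    · rintro m _ ⟨U, hU, rfl⟩
      exact (ho m U hU).preimage (hφ f)
    · intro m x
      obtain ⟨U, hU, hx⟩ := hcov m (φ f x)
      exact ⟨_, ⟨U, hU, rfl⟩, hx⟩
  choose Pc hPc1 hPc2 hPc3 using h1
  refine ⟨⋃ f, (fun Q => φ f '' Q) '' Pc f, countable_iUnion fun f => (hPc1 f).image _, ?_, ?_⟩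
  · intro x
    let f : Fin k → Fin (n + 1) := fun j => (x j).1
    let y : ∀ j, Sp A (S (f j)) := fun j => (x j).2
    obtain ⟨Q, hQ, hy⟩ := hPc2 f y
    exact ⟨φ f '' Q, mem_iUnion.mpr ⟨f, Q, hQ, rfl⟩, y, hy, rfl⟩
  · intro m R hR
    obtain ⟨f, Q, hQ, rfl⟩ := mem_iUnion.mp hR
    obtain ⟨_, ⟨U, hU, rfl⟩, hQU⟩ := hPc3 f m Q hQ
    refine ⟨U, hU, ?_⟩
    rintro _ ⟨y, hy, rfl⟩
    exact hQU hy

/-- Small neighbourhoods of the points of the last power. -/
theorem exists_nhd (A : Tree ι T) {n : ℕ} (S : Fin (n + 1) → Set ι)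
    (hS : ∀ a, ∃ i, a ∉ S i) (p : Fin (n + 1) → Sm A S) :
    ∃ O : Set (Fin (n + 1) → Sm A S), IsOpen O ∧ p ∈ O ∧
      {t : T | (fun i => (⟨i, t⟩ : Sm A S)) ∈ O}.Finite := by
  classical
  have hop : ∀ (i j : Fin (n + 1)) (U : Set T), A.op (S j) U →
      IsOpen {x : Fin (n + 1) → Sm A S | x i ∈ (Sigma.mk j '' (U : Set (Sp A (S j))))} := by
    intro i j U hU
    have hU' : IsOpen (show Set (Sp A (S j)) from U) := hU
    exact (isOpenMap_sigmaMk (σ := fun j => Sp A (S j)) (i := j) _ hU').preimage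
      (continuous_apply i)
  have huniv : ∀ j, A.op (S j) univ := fun j => (isOpen_univ : IsOpen (univ : Set (Sp A (S j))))
  by_cases h1 : ∃ i, (p i).1 ≠ i
  · obtain ⟨i, hi⟩ := h1
    refine ⟨_, hop i (p i).1 univ (huniv _), ⟨(p i).2, trivial, rfl⟩, ?_⟩
    convert Set.finite_empty
    ext t
    simp only [mem_ofPred_eq, mem_empty_iff_false, iff_false]
    rintro ⟨a, -, ha⟩
    exact hi (congrArg Sigma.fst ha)
  · push Not at h1
    have h2 : ∀ i, ∃ t : T, p i = ⟨i, t⟩ := by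
      intro i
      have h3 := h1 i
      rcases hp : p i with ⟨j, t⟩
      rw [hp] at h3
      simp only at h3
      subst h3
      exact ⟨t, rfl⟩
    choose t ht using h2
    by_cases h3 : ∃ i j, t i ≠ t j
    · obtain ⟨i, j, hij⟩ := h3
      obtain ⟨U, V, h4, h5, h6, h7, h8⟩ := sep_ne A (S i) (S j) (t i) (t j) hij
      refine ⟨_, (hop i i U h4).inter (hop j j V h5), ⟨⟨t i, h6, (ht i).symm⟩,
        ⟨t j, h7, (ht j).symm⟩⟩, ?_⟩
      convert Set.finite_empty
      ext s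
      simp only [mem_ofPred_eq, mem_empty_iff_false, iff_false]
      rintro ⟨⟨a, ha, ha'⟩, ⟨b, hb, hb'⟩⟩
      have e1 : a = s := eq_of_heq (Sigma.mk.inj ha').2
      have e2 : b = s := eq_of_heq (Sigma.mk.inj hb').2
      rw [e1] at ha
      rw [e2] at hb
      exact Set.disjoint_left.mp h8 ha hb
    · push Not at h3
      obtain ⟨i, hi⟩ := hS (A.ht (t 0))
      have h4 : A.op (S i) {t 0} := A.singleton_open (S i) (t 0) fun h => hi h.1
      refine ⟨_, hop i i {t 0} h4, ⟨t i, h3 i 0, (ht i).symm⟩, ?_⟩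
      refine (Set.finite_singleton (t 0)).subset ?_
      rintro s ⟨a, ha, ha'⟩
      have e1 : a = s := eq_of_heq (Sigma.mk.inj ha').2
      rw [e1] at ha
      exact ha

/-- The last power is not Lindelöf. -/
theorem not_lindelof (A : Tree ι T) (hT : ¬ (univ : Set T).Countable) {n : ℕ}
    (S : Fin (n + 1) → Set ι) (hS : ∀ a, ∃ i, a ∉ S i) :
    ¬ LindelofSpace (Fin (n + 1) → Sm A S) := by
  intro hL
  choose O h1 h2 h3 using exists_nhd A S hS
  obtain ⟨r, hr, hcov⟩ := (isLindelof_univ (X := Fin (n + 1) → Sm A S)).elim_nhds_subcover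
    O (fun p _ => (h1 p).mem_nhds (h2 p))
  apply hT
  have h6 : (⋃ p ∈ r, {t : T | (fun i => (⟨i, t⟩ : Sm A S)) ∈ O p}).Countable :=
    hr.biUnion fun p _ => (h3 p).countable
  refine h6.mono fun t _ => ?_
  have h7 : (fun i => (⟨i, t⟩ : Sm A S)) ∈ ⋃ p ∈ r, O p := hcov.2 (mem_univ _)
  simp only [mem_iUnion, exists_prop] at h7 ⊢
  exact h7

/-- cardinality -/
theorem mk_sm (A : Tree ι T) (hι : #ι = ℵ₁) (hT : ¬ (univ : Set T).Countable) {n : ℕ}
    (S : Fin (n + 1) → Set ι) : #(Sm A S) = ℵ₁ := by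
  apply le_antisymm
  · have h1 : ∀ ξ, ∃ f : T → ℕ, InjOn f {t | A.ht t = ξ} := fun ξ =>
      Set.countable_iff_exists_injOn.mp (A.level ξ)
    choose f hf using h1
    let g : Sm A S → Fin (n + 1) × ι × ℕ := fun x => (x.1, A.ht x.2, f (A.ht x.2) x.2)
    have hg : Function.Injective g := by
      rintro ⟨i, s⟩ ⟨j, t⟩ h
      simp only [g, Prod.mk.injEq] at h
      obtain ⟨h1, h2, h3⟩ := h
      subst h1
      rw [h2] at h3
      have : s = t := hf _ h2 rfl h3
      rw [this]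
    calc #(Sm A S) ≤ #(Fin (n + 1) × ι × ℕ) := mk_le_of_injective hg
      _ = (n + 1 : ℕ) * (ℵ₁ * ℵ₀) := by simp [hι]
      _ ≤ ℵ₀ * (ℵ₁ * ℵ₀) := by
        gcongr
        exact (natCast_lt_aleph0).le
      _ = ℵ₁ := by
        rw [mul_aleph0_eq (aleph0_le_aleph 1), aleph0_mul_eq (aleph0_le_aleph 1)]
  · have h1 : ¬ Countable (Sm A S) := by
      intro h
      apply hT
      have h2 : Function.Injective (fun t : T => (⟨0, t⟩ : Sm A S)) := by
        intro a b hab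
        exact sigma_mk_injective hab
      exact Set.countable_univ_iff.mpr h2.countable
    rw [← not_lt, ← succ_aleph0, Order.lt_succ_iff, mk_le_aleph0_iff]
    exact h1

end Pool.Agent.KS6_46.RB
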